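import Mathlib

/-!
Second order Taylor expansion, contact points with paraboloids, and an inequality for determinants.
-/

set_option autoImplicit false

open Set Filter Topology Metric MeasureTheory
open scoped InnerProductSpace

namespace Pool.Agent.H820B.PSH

section real

variable {E : Type*} [NormedAddCommGroup E] [InnerProductSpace ℝ E]

/-- A positive semidefinite symmetric operator with trace at most the dimension has determinant in
`[0,1]`. -/
theorem det_le_one [FiniteDimensional ℝ E] (B : E →ₗ[ℝ] E) (hs : B.IsSymmetric)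
    (hp : ∀ v, 0 ≤ ⟪B v, v⟫_ℝ) (ht : B.trace ℝ E ≤ Module.finrank ℝ E) :
    0 ≤ LinearMap.det B ∧ LinearMap.det B ≤ 1 := by
  have h1 := hs.det_eq_prod_eigenvalues (n := Module.finrank ℝ E) rfl
  have h2 := hs.trace_eq_sum_eigenvalues (n := Module.finrank ℝ E) rfl
  simp only [RCLike.ofReal_real_eq_id, id] at h1 h2
  have h3 : ∀ i, 0 ≤ hs.eigenvalues (n := Module.finrank ℝ E) rfl i := by
    intro i
    have h4 := hs.apply_eigenvectorBasis (n := Module.finrank ℝ E) rfl i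
    have h5 := hp (hs.eigenvectorBasis (n := Module.finrank ℝ E) rfl i)
    rw [h4] at h5
    simp only [RCLike.ofReal_real_eq_id, id] at h5
    rw [real_inner_smul_left, real_inner_self_eq_norm_sq,
      (hs.eigenvectorBasis (n := Module.finrank ℝ E) rfl).orthonormal.1 i] at h5
    simpa using h5
  rw [h1]
  refine ⟨Finset.prod_nonneg fun i _ => h3 i, ?_⟩
  have h6 : ∏ i, hs.eigenvalues (n := Module.finrank ℝ E) rfl i ≤
      ∏ i, Real.exp (hs.eigenvalues (n := Module.finrank ℝ E) rfl i - 1) := by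
    apply Finset.prod_le_prod (fun i _ => h3 i)
    intro i _
    have := Real.add_one_le_exp (hs.eigenvalues (n := Module.finrank ℝ E) rfl i - 1)
    linarith
  refine h6.trans ?_
  rw [← Real.exp_sum, Real.exp_le_one_iff, Finset.sum_sub_distrib, ← h2]
  simp only [Finset.sum_const, Finset.card_univ, Fintype.card_fin, nsmul_eq_mul, mul_one]
  linarith

/-- Second order Taylor expansion. -/
theorem taylor2 {f : E → ℝ} (hf : ContDiff ℝ 2 f) (x : E) {τ : ℝ} (hτ : 0 < τ) :
    ∃ δ > 0, ∀ v : E, ‖v‖ < δ →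
      |f (x + v) - f x - fderiv ℝ f x v - (1 / 2) * fderiv ℝ (fderiv ℝ f) x v v| ≤ τ * ‖v‖ ^ 2 := by
  have hf1 : ContDiff ℝ 1 (fderiv ℝ f) := hf.fderiv_right (m := 1) (by norm_num)
  have hd1 : ∀ z, HasFDerivAt f (fderiv ℝ f z) z := fun z =>
    (hf.differentiable (by norm_num) z).hasFDerivAt
  have hd2 : ∀ z, HasFDerivAt (fderiv ℝ f) (fderiv ℝ (fderiv ℝ f) z) z := fun z =>
    (hf1.differentiable (by norm_num) z).hasFDerivAt
  have hc : Continuous (fderiv ℝ (fderiv ℝ f)) := hf1.continuous_fderiv (by norm_num)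
  have hsym : ∀ u v, fderiv ℝ (fderiv ℝ f) x u v = fderiv ℝ (fderiv ℝ f) x v u := by
    intro u v
    exact second_derivative_symmetric (f := f) (f' := fderiv ℝ f) hd1 (hd2 x) u v
  obtain ⟨δ, hδ, hδ2⟩ := (Metric.continuousAt_iff (f := fderiv ℝ (fderiv ℝ f)) (a := x)).1
    hc.continuousAt τ hτ
  refine ⟨δ, hδ, ?_⟩
  -- first step
  have step1 : ∀ u : E, ‖u‖ < δ →
      ‖fderiv ℝ f (x + u) - fderiv ℝ f x - fderiv ℝ (fderiv ℝ f) x u‖ ≤ τ * ‖u‖ := by
    intro u hu
    have h1 : ∀ w ∈ ball (0 : E) δ, HasFDerivWithinAt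
        (fun w => fderiv ℝ f (x + w) - fderiv ℝ (fderiv ℝ f) x w)
        (fderiv ℝ (fderiv ℝ f) (x + w) - fderiv ℝ (fderiv ℝ f) x) (ball 0 δ) w := by
      intro w _
      apply HasFDerivAt.hasFDerivWithinAt
      have h2 : HasFDerivAt (fun w => fderiv ℝ f (x + w)) (fderiv ℝ (fderiv ℝ f) (x + w)) w := by
        have := (hd2 (x + w)).comp w ((hasFDerivAt_id w).const_add x)
        exact this.congr_fderiv (by ext; simp)
      exact h2.sub (fderiv ℝ (fderiv ℝ f) x).hasFDerivAt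
    have h3 := (convex_ball (0 : E) δ).norm_image_sub_le_of_norm_hasFDerivWithin_le (C := τ) h1
      (fun w hw => by
        have := hδ2 (x := x + w) (by simpa using hw)
        exact (lt_of_eq_of_lt (dist_eq_norm _ _).symm this).le) (mem_ball_self hδ) (show u ∈ ball (0 : E) δ by simpa using hu)
    simp only [add_zero, map_zero, sub_zero] at h3
    rw [show fderiv ℝ f (x + u) - fderiv ℝ f x - fderiv ℝ (fderiv ℝ f) x u =
      fderiv ℝ f (x + u) - fderiv ℝ (fderiv ℝ f) x u - fderiv ℝ f x by abel]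
    exact h3
  intro v hv
  have h1 : ∀ w ∈ closedBall (0 : E) ‖v‖, HasFDerivWithinAt
      (fun w => f (x + w) - fderiv ℝ f x w - (1 / 2) * fderiv ℝ (fderiv ℝ f) x w w)
      (fderiv ℝ f (x + w) - fderiv ℝ f x - fderiv ℝ (fderiv ℝ f) x w) (closedBall 0 ‖v‖) w := by
    intro w _
    apply HasFDerivAt.hasFDerivWithinAt
    have h2 : HasFDerivAt (fun w => f (x + w)) (fderiv ℝ f (x + w)) w := by
      have := (hd1 (x + w)).comp w ((hasFDerivAt_id w).const_add x)
      exact this.congr_fderiv (by ext; simp)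
    have h3 : HasFDerivAt (fun w => fderiv ℝ (fderiv ℝ f) x w w)
        ((fderiv ℝ (fderiv ℝ f) x w) + (fderiv ℝ (fderiv ℝ f) x).flip w) w := by
      have := (fderiv ℝ (fderiv ℝ f) x).hasFDerivAt (x := w)
      have h4 := this.clm_apply (hasFDerivAt_id w)
      exact h4.congr_fderiv (by ext; simp)
    have h5 := (h2.sub (fderiv ℝ f x).hasFDerivAt).sub (h3.const_mul (1 / 2))
    refine h5.congr_fderiv ?_
    ext u
    simp only [sub_apply, smul_apply, add_apply, ContinuousLinearMap.flip_apply, smul_eq_mul]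
    rw [hsym u w]
    ring
  have h3 := (convex_closedBall (0 : E) ‖v‖).norm_image_sub_le_of_norm_hasFDerivWithin_le
    (C := τ * ‖v‖) h1 (fun w hw => by
      have hw' : ‖w‖ ≤ ‖v‖ := by simpa using hw
      exact (step1 w (hw'.trans_lt hv)).trans (by gcongr))
    (mem_closedBall_self (norm_nonneg v)) (show v ∈ closedBall (0 : E) ‖v‖ by simp)
  simp only [add_zero, map_zero, sub_zero, mul_zero] at h3
  rw [show f (x + v) - f x - fderiv ℝ f x v - (1 / 2) * fderiv ℝ (fderiv ℝ f) x v v =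
    f (x + v) - fderiv ℝ f x v - (1 / 2) * fderiv ℝ (fderiv ℝ f) x v v - f x by ring, pow_two,
    ← mul_assoc]
  exact h3

/-- Contact from above with a paraboloid. -/
theorem contact {f : E → ℝ} (hf : ContDiff ℝ 2 f) {x y : E} {M : ℝ}
    (h : ∀ᶠ z in 𝓝 x, f z - M / 2 * ‖z - y‖ ^ 2 ≤ f x - M / 2 * ‖x - y‖ ^ 2) :
    (∀ v, fderiv ℝ f x v = M * ⟪x - y, v⟫_ℝ) ∧
      ∀ v, fderiv ℝ (fderiv ℝ f) x v v ≤ M * ‖v‖ ^ 2 := by
  have hd : HasFDerivAt f (fderiv ℝ f x) x := (hf.differentiable (by norm_num) x).hasFDerivAt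
  have h1 : ∀ v, fderiv ℝ f x v = M * ⟪x - y, v⟫_ℝ := by
    have hg : HasFDerivAt (fun z => f z - M / 2 * ‖z - y‖ ^ 2)
        (fderiv ℝ f x - (M / 2) • (2 • (innerSL ℝ (x - y)))) x := by
      have h2 : HasFDerivAt (fun z : E => ‖z - y‖ ^ 2) (2 • (innerSL ℝ (x - y))) x := by
        have := ((hasFDerivAt_id x).sub_const y).norm_sq
        simpa using this
      exact hd.sub (h2.const_mul (M / 2))
    have hmax : IsLocalMax (fun z => f z - M / 2 * ‖z - y‖ ^ 2) x := h
    have h3 := hmax.hasFDerivAt_eq_zero hg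
    intro v
    have h4 := congrArg (fun L : E →L[ℝ] ℝ => L v) h3
    simp at h4
    rw [inner_sub_left]
    linarith
  refine ⟨h1, fun v => ?_⟩
  by_cases hv : v = 0
  · subst hv; simp
  have hvn : 0 < ‖v‖ := norm_pos_iff.2 hv
  apply le_of_forall_pos_le_add
  intro η hη
  have hτ : 0 < η / (2 * ‖v‖ ^ 2) := by positivity
  obtain ⟨δ, hδ, hT⟩ := taylor2 hf x hτ
  obtain ⟨δ', hδ', hC⟩ := Metric.eventually_nhds_iff.1 h
  set t : ℝ := min δ δ' / (2 * ‖v‖) with ht
  have ht0 : 0 < t := by positivity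
  have htn : ‖t • v‖ = min δ δ' / 2 := by
    rw [norm_smul, Real.norm_eq_abs, abs_of_pos ht0, ht]
    field_simp
  have hm : 0 < min δ δ' := lt_min hδ hδ'
  have h2 := hT (t • v) (by rw [htn]; have := min_le_left δ δ'; linarith)
  have h3 := hC (y := x + t • v) (by
    rw [dist_eq_norm, add_sub_cancel_left, htn]
    have := min_le_right δ δ'; linarith)
  rw [abs_le] at h2
  have h4 : ‖x + t • v - y‖ ^ 2 = ‖x - y‖ ^ 2 + 2 * (t * ⟪x - y, v⟫_ℝ) + t ^ 2 * ‖v‖ ^ 2 := by
    rw [show x + t • v - y = (x - y) + t • v by abel, norm_add_sq_real, real_inner_smul_right,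
      norm_smul, Real.norm_eq_abs, mul_pow, sq_abs]
  rw [h4] at h3
  have h5 : fderiv ℝ f x (t • v) = t * (M * ⟪x - y, v⟫_ℝ) := by
    rw [map_smul, smul_eq_mul, h1]
  have h6 : fderiv ℝ (fderiv ℝ f) x (t • v) (t • v) = t ^ 2 * fderiv ℝ (fderiv ℝ f) x v v := by
    simp only [map_smul, smul_apply, smul_eq_mul]
    ring
  have h7 : ‖t • v‖ ^ 2 = t ^ 2 * ‖v‖ ^ 2 := by
    rw [norm_smul, Real.norm_eq_abs, mul_pow, sq_abs]
  rw [h5, h6, h7] at h2
  have h8 : η / (2 * ‖v‖ ^ 2) * (t ^ 2 * ‖v‖ ^ 2) = η / 2 * t ^ 2 := by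
    field_simp
  rw [h8] at h2
  have h9 : t ^ 2 * fderiv ℝ (fderiv ℝ f) x v v ≤ t ^ 2 * (M * ‖v‖ ^ 2 + η) := by
    nlinarith [h2.1, h3]
  exact le_of_mul_le_mul_left h9 (by positivity)

end real

end Pool.Agent.H820B.PSH
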