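import Mathlib
import Pool.Agent.H820B.PSH.Lin

/-!
The contact set of paraboloids with a smooth function with nonnegative Laplacian is at least as
large as the set of their vertices.
-/

set_option autoImplicit false

open Set Filter Topology Metric MeasureTheory
open scoped InnerProductSpace

namespace Pool.Agent.H820B.PSH

section real

variable {E : Type*} [NormedAddCommGroup E] [InnerProductSpace ℝ E] [FiniteDimensional ℝ E]

/-- The vector which represents a functional. -/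
noncomputable def GG : (E →L[ℝ] ℝ) →L[ℝ] E :=
  ∑ i, (ContinuousLinearMap.apply ℝ ℝ (stdOrthonormalBasis ℝ E i)).smulRight
    (stdOrthonormalBasis ℝ E i)

theorem inner_GG (L : E →L[ℝ] ℝ) (v : E) : ⟪GG L, v⟫_ℝ = L v := by
  have h1 : GG L = ∑ i, L (stdOrthonormalBasis ℝ E i) • stdOrthonormalBasis ℝ E i := by
    simp [GG]
  rw [h1, sum_inner]
  conv_rhs => rw [← (stdOrthonormalBasis ℝ E).sum_repr' v, map_sum]
  refine Finset.sum_congr rfl fun i _ => ?_
  rw [real_inner_smul_left, map_smul, smul_eq_mul, mul_comm]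

/-- The vertex of the paraboloid of opening `M` that touches the graph of `f` at `x`. -/
noncomputable def vert (f : E → ℝ) (M : ℝ) (x : E) : E := x - (1 / M) • GG (fderiv ℝ f x)

theorem vert_continuous {f : E → ℝ} (hf : ContDiff ℝ 2 f) (M : ℝ) : Continuous (vert f M) := by
  have hf1 : Continuous (fderiv ℝ f) := hf.continuous_fderiv (by norm_num)
  unfold vert
  fun_prop

/-- The trace of the second derivative. -/
noncomputable def lap (f : E → ℝ) (x : E) : ℝ :=
  ∑ i, fderiv ℝ (fderiv ℝ f) x (stdOrthonormalBasis ℝ E i) (stdOrthonormalBasis ℝ E i)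

theorem lap_eq {ι : Type*} [Fintype ι] (f : E → ℝ) (x : E) (b : OrthonormalBasis ι ℝ E) :
    lap f x = ∑ i, fderiv ℝ (fderiv ℝ f) x (b i) (b i) := by
  have h1 := LinearMap.trace_eq_sum_inner
    ((GG ∘L fderiv ℝ (fderiv ℝ f) x : E →L[ℝ] E) : E →ₗ[ℝ] E) b
  have h2 := LinearMap.trace_eq_sum_inner
    ((GG ∘L fderiv ℝ (fderiv ℝ f) x : E →L[ℝ] E) : E →ₗ[ℝ] E) (stdOrthonormalBasis ℝ E)
  rw [h1] at h2
  simp only [ContinuousLinearMap.coe_coe, ContinuousLinearMap.comp_apply] at h2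
  rw [lap]
  have h3 : ∀ v : E, ⟪v, GG (fderiv ℝ (fderiv ℝ f) x v)⟫_ℝ = fderiv ℝ (fderiv ℝ f) x v v := by
    intro v
    rw [real_inner_comm, inner_GG]
  simp only [h3] at h2
  exact h2.symm

variable [MeasurableSpace E] [BorelSpace E]

theorem area (μ : Measure E) [μ.IsAddHaarMeasure] {f : E → ℝ} (hf : ContDiff ℝ 2 f) {M : ℝ}
    (hM : 0 < M) {S : Set E} (hS : MeasurableSet S)
    (h1 : ∀ x ∈ S, ∀ᶠ z in 𝓝 x,
      f z - M / 2 * ‖z - vert f M x‖ ^ 2 ≤ f x - M / 2 * ‖x - vert f M x‖ ^ 2)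
    (h2 : ∀ x ∈ S, 0 ≤ lap f x) :
    μ (vert f M '' S) ≤ μ S := by
  have hf1 : ContDiff ℝ 1 (fderiv ℝ f) := hf.fderiv_right (m := 1) (by norm_num)
  have hd1 : ∀ z, HasFDerivAt f (fderiv ℝ f z) z := fun z =>
    (hf.differentiable (by norm_num) z).hasFDerivAt
  have hd2 : ∀ z, HasFDerivAt (fderiv ℝ f) (fderiv ℝ (fderiv ℝ f) z) z := fun z =>
    (hf1.differentiable (by norm_num) z).hasFDerivAt
  let B : E → E →L[ℝ] E := fun x =>
    ContinuousLinearMap.id ℝ E - (1 / M) • (GG ∘L fderiv ℝ (fderiv ℝ f) x)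
  have hB : ∀ x, HasFDerivAt (vert f M) (B x) x := by
    intro x
    have h3 : HasFDerivAt (fun z => GG (fderiv ℝ f z)) (GG ∘L fderiv ℝ (fderiv ℝ f) x) x :=
      (GG (E := E)).hasFDerivAt.comp x (hd2 x)
    exact (hasFDerivAt_id x).sub (h3.const_smul (1 / M))
  have h3 := addHaar_image_le_lintegral_abs_det_fderiv μ hS
    (fun x _ => (hB x).hasFDerivWithinAt (s := S))
  refine h3.trans ?_
  have h4 : ∀ x ∈ S, ENNReal.ofReal |(B x).det| ≤ 1 := by
    intro x hx
    obtain ⟨-, hc⟩ := contact hf (h1 x hx)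
    have hsym : ∀ u v, fderiv ℝ (fderiv ℝ f) x u v = fderiv ℝ (fderiv ℝ f) x v u := by
      intro u v
      exact second_derivative_symmetric (f := f) (f' := fderiv ℝ f) hd1 (hd2 x) u v
    have hBi : ∀ u v : E, ⟪(B x : E →ₗ[ℝ] E) u, v⟫_ℝ =
        ⟪u, v⟫_ℝ - 1 / M * fderiv ℝ (fderiv ℝ f) x u v := by
      intro u v
      simp only [B, ContinuousLinearMap.coe_coe, sub_apply, smul_apply,
        ContinuousLinearMap.comp_apply, ContinuousLinearMap.id_apply]
      rw [inner_sub_left, real_inner_smul_left, inner_GG]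
    have hs : ((B x : E →L[ℝ] E) : E →ₗ[ℝ] E).IsSymmetric := by
      intro u v
      rw [hBi, real_inner_comm (((B x : E →L[ℝ] E) : E →ₗ[ℝ] E) v) u, hBi, hsym u v,
        real_inner_comm]
    have hp : ∀ v, 0 ≤ ⟪((B x : E →L[ℝ] E) : E →ₗ[ℝ] E) v, v⟫_ℝ := by
      intro v
      rw [hBi, real_inner_self_eq_norm_sq]
      have := hc v
      have h5 : 1 / M * fderiv ℝ (fderiv ℝ f) x v v ≤ 1 / M * (M * ‖v‖ ^ 2) := by gcongr
      have h6 : 1 / M * (M * ‖v‖ ^ 2) = ‖v‖ ^ 2 := by field_simp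
      linarith
    have ht : ((B x : E →L[ℝ] E) : E →ₗ[ℝ] E).trace ℝ E ≤ Module.finrank ℝ E := by
      rw [LinearMap.trace_eq_sum_inner _ (stdOrthonormalBasis ℝ E)]
      have h5 : ∀ i, ⟪stdOrthonormalBasis ℝ E i, ((B x : E →L[ℝ] E) : E →ₗ[ℝ] E)
          (stdOrthonormalBasis ℝ E i)⟫_ℝ = 1 - 1 / M *
            fderiv ℝ (fderiv ℝ f) x (stdOrthonormalBasis ℝ E i) (stdOrthonormalBasis ℝ E i) := by
        intro i
        rw [real_inner_comm, hBi, real_inner_self_eq_norm_sq,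
          (stdOrthonormalBasis ℝ E).orthonormal.1 i]
        norm_num
      rw [Finset.sum_congr rfl fun i _ => h5 i, Finset.sum_sub_distrib, ← Finset.mul_sum]
      have h6 := h2 x hx
      rw [lap] at h6
      have h7 : 0 ≤ 1 / M * ∑ i, fderiv ℝ (fderiv ℝ f) x (stdOrthonormalBasis ℝ E i)
        (stdOrthonormalBasis ℝ E i) := mul_nonneg (by positivity) h6
      simp only [Finset.sum_const, Finset.card_univ, Fintype.card_fin, nsmul_eq_mul, mul_one]
      linarith
    obtain ⟨h5, h6⟩ := det_le_one _ hs hp ht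
    rw [ENNReal.ofReal_le_one, ContinuousLinearMap.det, abs_of_nonneg h5]
    exact h6
  calc ∫⁻ x in S, ENNReal.ofReal |(B x).det| ∂μ ≤ ∫⁻ _ in S, 1 ∂μ :=
        setLIntegral_mono' hS h4
    _ = μ S := by simp

end real

section rot

variable {E : Type*} [NormedAddCommGroup E] [InnerProductSpace ℝ E]

/-- `J` is the multiplication by `i` of a complex structure with a Hermitian norm. -/
structure IsJ (J : E ≃ₗᵢ[ℝ] E) : Prop where
  sq : ∀ v, J (J v) = -v
  orth : ∀ v, ⟪v, J v⟫_ℝ = 0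

/-- The rotation by the angle `θ`. -/
noncomputable def rot (J : E ≃ₗᵢ[ℝ] E) (θ : ℝ) (w : E) : E := Real.cos θ • w + Real.sin θ • J w

theorem rot_norm {J : E ≃ₗᵢ[ℝ] E} (hJ : IsJ J) (θ : ℝ) (w : E) : ‖rot J θ w‖ = ‖w‖ := by
  have h1 : ‖rot J θ w‖ ^ 2 = ‖w‖ ^ 2 := by
    rw [rot, norm_add_sq_real, norm_smul, norm_smul, real_inner_smul_left, real_inner_smul_right,
      hJ.orth, J.norm_map, mul_pow, mul_pow, Real.norm_eq_abs, Real.norm_eq_abs, sq_abs, sq_abs]
    have := Real.sin_sq_add_cos_sq θ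
    linear_combination ‖w‖ ^ 2 * this
  exact (pow_left_inj₀ (norm_nonneg _) (norm_nonneg _) two_ne_zero).1 h1

theorem rot_smul (J : E ≃ₗᵢ[ℝ] E) (θ s : ℝ) (w : E) : rot J θ (s • w) = s • rot J θ w := by
  rw [rot, rot, map_smul, smul_add, smul_comm s, smul_comm s]

theorem rot_continuous (J : E ≃ₗᵢ[ℝ] E) : Continuous fun p : ℝ × E => rot J p.1 p.2 := by
  unfold rot
  have := J.continuous
  fun_prop

/-- The submean inequality on circles gives that the Levi form is nonnegative. -/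
theorem levi_nonneg {J : E ≃ₗᵢ[ℝ] E} (hJ : IsJ J) {f : E → ℝ} (hf : ContDiff ℝ 2 f) {x : E} {ρ : ℝ}
    (hρ : 0 < ρ)
    (h : ∀ w : E, ‖w‖ < ρ → 2 * Real.pi * f x ≤ ∫ θ in (0 : ℝ)..(2 * Real.pi), f (x + rot J θ w))
    (w : E) :
    0 ≤ fderiv ℝ (fderiv ℝ f) x w w + fderiv ℝ (fderiv ℝ f) x (J w) (J w) := by
  by_cases hw : w = 0
  · subst hw; simp
  have hwn : 0 < ‖w‖ := norm_pos_iff.2 hw
  set a := fderiv ℝ (fderiv ℝ f) x w w with ha
  set c := fderiv ℝ (fderiv ℝ f) x (J w) (J w) with hc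
  set b := fderiv ℝ (fderiv ℝ f) x w (J w) + fderiv ℝ (fderiv ℝ f) x (J w) w with hb
  set p := fderiv ℝ f x w with hp
  set q := fderiv ℝ f x (J w) with hq
  by_contra hcon
  push Not at hcon
  set κ := -(a + c) with hκ
  have hκ0 : 0 < κ := by linarith
  have hτ : 0 < κ / (8 * ‖w‖ ^ 2) := by positivity
  obtain ⟨δ, hδ, hT⟩ := taylor2 hf x hτ
  have hm : 0 < min δ ρ := lt_min hδ hρ
  set s : ℝ := min δ ρ / (2 * ‖w‖) with hs
  have hs0 : 0 < s := by positivity
  have hsn : ‖s • w‖ = min δ ρ / 2 := by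
    rw [norm_smul, Real.norm_eq_abs, abs_of_pos hs0, hs]
    field_simp
  have h1 := h (s • w) (by rw [hsn]; have := min_le_right δ ρ; linarith)
  have hpt : ∀ θ : ℝ, f (x + rot J θ (s • w)) ≤ (f x + κ / 8 * s ^ 2) +
      (s * p * Real.cos θ + s * q * Real.sin θ + s ^ 2 / 2 * a * Real.cos θ ^ 2 +
        s ^ 2 / 2 * b * (Real.sin θ * Real.cos θ) + s ^ 2 / 2 * c * Real.sin θ ^ 2) := by
    intro θ
    have hvn : ‖rot J θ (s • w)‖ = ‖s • w‖ := rot_norm hJ θ _
    have h4 := hT (rot J θ (s • w)) (by rw [hvn, hsn]; have := min_le_left δ ρ; linarith)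
    rw [abs_le] at h4
    have h5 : fderiv ℝ f x (rot J θ (s • w)) = s * (Real.cos θ * p + Real.sin θ * q) := by
      rw [rot_smul, map_smul, rot, map_add, map_smul, map_smul, smul_eq_mul, smul_eq_mul,
        smul_eq_mul]
    have h6 : fderiv ℝ (fderiv ℝ f) x (rot J θ (s • w)) (rot J θ (s • w)) =
        s ^ 2 * (Real.cos θ ^ 2 * a + Real.sin θ * Real.cos θ * b + Real.sin θ ^ 2 * c) := by
      simp only [rot, map_smul, map_add, smul_apply, add_apply, smul_eq_mul, ha, hb, hc]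
      ring
    have h7 : ‖rot J θ (s • w)‖ ^ 2 = s ^ 2 * ‖w‖ ^ 2 := by
      rw [hvn, norm_smul, Real.norm_eq_abs, mul_pow, sq_abs]
    have h8 : κ / (8 * ‖w‖ ^ 2) * (s ^ 2 * ‖w‖ ^ 2) = κ / 8 * s ^ 2 := by
      field_simp
    rw [h5, h6, h7, h8] at h4
    nlinarith [h4.2]
  have hint : (∫ θ in (0 : ℝ)..(2 * Real.pi), f (x + rot J θ (s • w))) ≤
      ∫ θ in (0 : ℝ)..(2 * Real.pi), ((f x + κ / 8 * s ^ 2) +
      (s * p * Real.cos θ + s * q * Real.sin θ + s ^ 2 / 2 * a * Real.cos θ ^ 2 +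
        s ^ 2 / 2 * b * (Real.sin θ * Real.cos θ) + s ^ 2 / 2 * c * Real.sin θ ^ 2)) := by
    apply intervalIntegral.integral_mono_on (by positivity)
    · apply Continuous.intervalIntegrable
      apply hf.continuous.comp
      exact continuous_const.add ((rot_continuous J).comp (continuous_id.prodMk continuous_const))
    · apply Continuous.intervalIntegrable
      fun_prop
    · intro θ _
      exact hpt θ
  have hval : (∫ θ in (0 : ℝ)..(2 * Real.pi), ((f x + κ / 8 * s ^ 2) +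
      (s * p * Real.cos θ + s * q * Real.sin θ + s ^ 2 / 2 * a * Real.cos θ ^ 2 +
        s ^ 2 / 2 * b * (Real.sin θ * Real.cos θ) + s ^ 2 / 2 * c * Real.sin θ ^ 2))) =
      2 * Real.pi * (f x + κ / 8 * s ^ 2) + s ^ 2 / 2 * a * Real.pi + s ^ 2 / 2 * c * Real.pi := by
    have i1 : ∀ g : ℝ → ℝ, Continuous g → IntervalIntegrable g volume 0 (2 * Real.pi) :=
      fun g hg => hg.intervalIntegrable _ _
    rw [intervalIntegral.integral_add (i1 _ (by fun_prop)) (i1 _ (by fun_prop)),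
      intervalIntegral.integral_add (i1 _ (by fun_prop)) (i1 _ (by fun_prop)),
      intervalIntegral.integral_add (i1 _ (by fun_prop)) (i1 _ (by fun_prop)),
      intervalIntegral.integral_add (i1 _ (by fun_prop)) (i1 _ (by fun_prop)),
      intervalIntegral.integral_add (i1 _ (by fun_prop)) (i1 _ (by fun_prop))]
    simp only [intervalIntegral.integral_const, intervalIntegral.integral_const_mul, integral_cos,
      integral_sin, integral_cos_sq, integral_sin_sq, integral_sin_mul_cos₁]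
    simp [Real.sin_two_pi, Real.cos_two_pi]
    ring
  rw [hval] at hint
  have h9 := h1.trans hint
  have h10 : 0 < Real.pi * s ^ 2 := by positivity
  have h11 : a + c = -κ := by rw [hκ]; ring
  nlinarith [h9, h10, h11, mul_pos h10 hκ0]

theorem lap_nonneg [FiniteDimensional ℝ E] {J : E ≃ₗᵢ[ℝ] E} (hJ : IsJ J) {f : E → ℝ}
    (hf : ContDiff ℝ 2 f) {x : E} {ρ : ℝ} (hρ : 0 < ρ)
    (h : ∀ w : E, ‖w‖ < ρ → 2 * Real.pi * f x ≤ ∫ θ in (0 : ℝ)..(2 * Real.pi), f (x + rot J θ w)) :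
    0 ≤ lap f x := by
  have h1 := lap_eq f x ((stdOrthonormalBasis ℝ E).map J)
  have h2 := lap_eq f x (stdOrthonormalBasis ℝ E)
  have h3 : 0 ≤ ∑ i, (fderiv ℝ (fderiv ℝ f) x (stdOrthonormalBasis ℝ E i)
      (stdOrthonormalBasis ℝ E i) + fderiv ℝ (fderiv ℝ f) x
        (J (stdOrthonormalBasis ℝ E i)) (J (stdOrthonormalBasis ℝ E i))) :=
    Finset.sum_nonneg fun i _ => levi_nonneg hJ hf hρ h _
  rw [Finset.sum_add_distrib] at h3
  simp only [OrthonormalBasis.map_apply] at h1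
  linarith

/-- The rotation as an isometry. -/
noncomputable def rotIso {J : E ≃ₗᵢ[ℝ] E} (hJ : IsJ J) (θ : ℝ) : E ≃ₗᵢ[ℝ] E where
  toFun := rot J θ
  invFun := rot J (-θ)
  map_add' u v := by simp only [rot, map_add, smul_add]; abel
  map_smul' r v := by simp only [rot_smul, RingHom.id_apply]
  left_inv v := by
    simp only [rot, Real.cos_neg, Real.sin_neg, map_add, map_smul, hJ.sq, smul_add, smul_smul,
      neg_smul, smul_neg, neg_neg]
    have h1 := Real.sin_sq_add_cos_sq θ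
    have h2 : (Real.cos θ * Real.cos θ) • v + (Real.sin θ * Real.sin θ) • v = v := by
      rw [← add_smul, show Real.cos θ * Real.cos θ + Real.sin θ * Real.sin θ = 1 by
        linear_combination h1, one_smul]
    refine Eq.trans ?_ h2
    module
  right_inv v := by
    simp only [rot, Real.cos_neg, Real.sin_neg, map_add, map_smul, hJ.sq, smul_add, smul_smul,
      neg_smul, smul_neg, map_neg, neg_neg]
    have h1 := Real.sin_sq_add_cos_sq θ
    have h2 : (Real.cos θ * Real.cos θ) • v + (Real.sin θ * Real.sin θ) • v = v := by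
      rw [← add_smul, show Real.cos θ * Real.cos θ + Real.sin θ * Real.sin θ = 1 by
        linear_combination h1, one_smul]
    refine Eq.trans ?_ h2
    module
  norm_map' v := rot_norm hJ θ v

end rot

end Pool.Agent.H820B.PSH
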