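import Mathlib
import Pool.Agent.H820B.PSH.Area

/-!
Mollification of functions with the submean property on circles.
-/

set_option autoImplicit false
set_option linter.unusedSectionVars false

open Set Filter Topology Metric MeasureTheory
open scoped InnerProductSpace

namespace Pool.Agent.H820B.PSH

variable {E : Type*} [NormedAddCommGroup E] [InnerProductSpace ℝ E]

/-- An unnormalised bump of radius `ε`. -/
noncomputable def bump (ε : ℝ) (x : E) : ℝ := Real.smoothTransition (ε ^ 2 - ‖x‖ ^ 2)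

lemma bump_nonneg (ε : ℝ) (x : E) : 0 ≤ bump ε x := Real.smoothTransition.nonneg _

lemma bump_le_one (ε : ℝ) (x : E) : bump ε x ≤ 1 := Real.smoothTransition.le_one _

lemma bump_pos {ε : ℝ} {x : E} (h : ‖x‖ < ε) : 0 < bump ε x := by
  apply Real.smoothTransition.pos_of_pos
  have := norm_nonneg x
  nlinarith

lemma bump_zero {ε : ℝ} (hε : 0 ≤ ε) {x : E} (h : ε ≤ ‖x‖) : bump ε x = 0 := by
  apply Real.smoothTransition.zero_of_nonpos
  nlinarith

lemma bump_contDiff (ε : ℝ) : ContDiff ℝ 2 (bump ε : E → ℝ) := by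
  unfold bump
  exact Real.smoothTransition.contDiff.comp (contDiff_const.sub (contDiff_norm_sq ℝ))

lemma bump_continuous (ε : ℝ) : Continuous (bump ε : E → ℝ) := (bump_contDiff ε).continuous

variable [FiniteDimensional ℝ E]

lemma bump_compact {ε : ℝ} (hε : 0 ≤ ε) : HasCompactSupport (bump ε : E → ℝ) := by
  apply HasCompactSupport.intro (isCompact_closedBall (0 : E) ε)
  intro x hx
  apply bump_zero hε
  rw [mem_closedBall, dist_zero_right, not_le] at hx
  exact hx.le

variable [MeasurableSpace E] [BorelSpace E]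

lemma bump_integrable {ε : ℝ} (hε : 0 ≤ ε) : Integrable (bump ε : E → ℝ) :=
  (bump_continuous ε).integrable_of_hasCompactSupport (bump_compact hε)

/-- The integral of the bump. -/
noncomputable def bint (E : Type*) [NormedAddCommGroup E] [InnerProductSpace ℝ E]
    [FiniteDimensional ℝ E] [MeasurableSpace E] [BorelSpace E] (ε : ℝ) : ℝ := ∫ x : E, bump ε x

lemma bint_pos {ε : ℝ} (hε : 0 < ε) : 0 < bint E ε := by
  apply (bump_continuous (E := E) ε).integral_pos_of_hasCompactSupport_nonneg_nonzero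
    (bump_compact hε.le) (fun x => bump_nonneg ε x) (x := 0)
  exact (bump_pos (by simpa using hε)).ne'

/-- The mollifier of radius `ε`. -/
noncomputable def eta (ε : ℝ) (x : E) : ℝ := bump ε x / bint E ε

lemma eta_nonneg {ε : ℝ} (hε : 0 < ε) (x : E) : 0 ≤ eta ε x :=
  div_nonneg (bump_nonneg _ _) (bint_pos hε).le

lemma eta_zero {ε : ℝ} (hε : 0 ≤ ε) {x : E} (h : ε ≤ ‖x‖) : eta ε x = 0 := by
  rw [eta, bump_zero hε h, zero_div]

lemma eta_pos {ε : ℝ} (hε : 0 < ε) {x : E} (h : ‖x‖ < ε) : 0 < eta ε x :=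
  div_pos (bump_pos h) (bint_pos hε)

lemma eta_contDiff (ε : ℝ) : ContDiff ℝ 2 (eta ε : E → ℝ) := by
  unfold eta
  exact (bump_contDiff ε).div_const _

lemma eta_continuous (ε : ℝ) : Continuous (eta ε : E → ℝ) := (eta_contDiff ε).continuous

lemma eta_compact {ε : ℝ} (hε : 0 ≤ ε) : HasCompactSupport (eta ε : E → ℝ) := by
  apply HasCompactSupport.intro (isCompact_closedBall (0 : E) ε)
  intro x hx
  apply eta_zero hε
  rw [mem_closedBall, dist_zero_right, not_le] at hx
  exact hx.le

lemma eta_integrable {ε : ℝ} (hε : 0 < ε) : Integrable (eta ε : E → ℝ) :=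
  (bump_integrable hε.le).div_const _

lemma eta_integral {ε : ℝ} (hε : 0 < ε) : ∫ x : E, eta ε x = 1 := by
  unfold eta
  rw [integral_div]
  exact div_self (bint_pos hε).ne'

lemma eta_norm {ε : ℝ} {x y : E} (h : ‖x‖ = ‖y‖) : eta ε x = eta ε y := by
  rw [eta, eta, bump, bump, h]

/-- Bounded functions which are upper semicontinuous and have the submean property for circles in
a ball. -/
structure Sub (J : E ≃ₗᵢ[ℝ] E) (ψ : E → ℝ) (z₀ : E) (R K : ℝ) : Prop where
  meas : Measurable ψ
  bdd : ∀ z, |ψ z| ≤ K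
  usc : ∀ z ∈ ball z₀ R, ∀ δ > 0, ∀ᶠ z' in 𝓝 z, ψ z' < ψ z + δ
  mean : ∀ z w, dist z z₀ + ‖w‖ < R →
    2 * Real.pi * ψ z ≤ ∫ θ in (0 : ℝ)..(2 * Real.pi), ψ (z + rot J θ w)

/-- The mollification. -/
noncomputable def mol (ψ : E → ℝ) (ε : ℝ) (x : E) : ℝ := ∫ t, ψ t * eta ε (x - t)

variable {J : E ≃ₗᵢ[ℝ] E} {ψ : E → ℝ} {z₀ : E} {R K : ℝ}

lemma mol_contDiff (h : Sub J ψ z₀ R K) {ε : ℝ} (hε : 0 < ε) : ContDiff ℝ 2 (mol ψ ε) := by
  have hl : LocallyIntegrable ψ (volume : Measure E) := by
    apply (locallyIntegrable_const K).mono h.meas.aestronglyMeasurable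
    filter_upwards with z
    rw [Real.norm_eq_abs, Real.norm_eq_abs]
    exact (h.bdd z).trans (le_abs_self K)
  have h1 := (eta_compact (E := E) hε.le).contDiff_convolution_right (n := 2)
    (ContinuousLinearMap.mul ℝ ℝ) hl (eta_contDiff ε)
  exact h1

lemma mol_integrable (h : Sub J ψ z₀ R K) {ε : ℝ} (hε : 0 < ε) (g : E → E) (hg : Measurable g) :
    Integrable (fun t => ψ (g t) * eta ε t) := by
  apply ((eta_integrable hε).const_mul K).mono'
  · exact ((h.meas.comp hg).mul (eta_continuous ε).measurable).aestronglyMeasurable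
  · filter_upwards with t
    rw [norm_mul, Real.norm_eq_abs, Real.norm_eq_abs, abs_of_nonneg (eta_nonneg hε t)]
    exact mul_le_mul_of_nonneg_right (h.bdd _) (eta_nonneg hε t)

lemma mol_eq (ψ : E → ℝ) (ε : ℝ) (x : E) : mol ψ ε x = ∫ t, ψ (x - t) * eta ε t := by
  have h1 := integral_sub_left_eq_self (fun t => ψ (x - t) * eta ε t) (volume : Measure E) x
  rw [← h1, mol]
  refine integral_congr_ae ?_
  filter_upwards with t
  simp

lemma mol_abs_le (h : Sub J ψ z₀ R K) {ε : ℝ} (hε : 0 < ε) (x : E) : |mol ψ ε x| ≤ K := by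
  rw [mol_eq]
  have h1 := norm_integral_le_of_norm_le ((eta_integrable (E := E) hε).const_mul K)
    (f := fun t => ψ (x - t) * eta ε t) (by
      filter_upwards with t
      rw [norm_mul, Real.norm_eq_abs, Real.norm_eq_abs, abs_of_nonneg (eta_nonneg hε t)]
      exact mul_le_mul_of_nonneg_right (h.bdd _) (eta_nonneg hε t))
  rw [integral_const_mul, eta_integral hε, mul_one, Real.norm_eq_abs] at h1
  exact h1

instance finI : IsFiniteMeasure ((volume : Measure ℝ).restrict (uIoc 0 (2 * Real.pi))) :=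
  ⟨by
    rw [Measure.restrict_apply_univ, uIoc_of_le (by positivity), Real.volume_Ioc]
    exact ENNReal.ofReal_lt_top⟩

lemma prodInt (h : Sub J ψ z₀ R K) {ε : ℝ} (hε : 0 < ε) (g : ℝ × E → E) (hg : Measurable g) :
    Integrable (fun p : ℝ × E => ψ (g p) * eta ε p.2)
      ((volume.restrict (uIoc 0 (2 * Real.pi))).prod (volume : Measure E)) := by
  have h1 : Integrable (fun p : ℝ × E => K * eta ε p.2)
      ((volume.restrict (uIoc 0 (2 * Real.pi))).prod (volume : Measure E)) :=
    ((eta_integrable (E := E) hε).const_mul K).comp_snd _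
  apply h1.mono'
  · exact ((h.meas.comp hg).mul ((eta_continuous ε).measurable.comp measurable_snd)).aestronglyMeasurable
  · filter_upwards with p
    rw [norm_mul, Real.norm_eq_abs, Real.norm_eq_abs, abs_of_nonneg (eta_nonneg hε _)]
    exact mul_le_mul_of_nonneg_right (h.bdd _) (eta_nonneg hε _)

lemma innerInt (h : Sub J ψ z₀ R K) {ε : ℝ} (hε : 0 < ε) (g : ℝ × E → E) (hg : Measurable g) :
    Integrable (fun t : E => ∫ θ in (0 : ℝ)..(2 * Real.pi), ψ (g (θ, t)) * eta ε t) := by
  have hpi : 0 < 2 * Real.pi := by positivity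
  have h6 := (prodInt h hε g hg).integral_prod_right
  simp only [uIoc_of_le hpi.le] at h6
  refine h6.congr ?_
  filter_upwards with t
  rw [intervalIntegral.integral_of_le hpi.le]

lemma swap (h : Sub J ψ z₀ R K) {ε : ℝ} (hε : 0 < ε) (g : ℝ × E → E) (hg : Measurable g) :
    ∫ θ in (0 : ℝ)..(2 * Real.pi), ∫ t, ψ (g (θ, t)) * eta ε t =
      ∫ t, (∫ θ in (0 : ℝ)..(2 * Real.pi), ψ (g (θ, t)) * eta ε t) :=
  intervalIntegral_integral_swap (f := fun θ t => ψ (g (θ, t)) * eta ε t) (prodInt h hε g hg)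

lemma rot_neg (J : E ≃ₗᵢ[ℝ] E) (θ : ℝ) (w : E) : rot J θ (-w) = -rot J θ w := by
  rw [rot, rot, map_neg, smul_neg, smul_neg]; abel

/-- The mollification lies above the function. -/
theorem le_mol (hJ : IsJ J) (h : Sub J ψ z₀ R K) {ε : ℝ} (hε : 0 < ε) {x : E}
    (hx : dist x z₀ + ε < R) : ψ x ≤ mol ψ ε x := by
  have hpi : 0 < 2 * Real.pi := by positivity
  have h1 : ∀ θ : ℝ, mol ψ ε x = ∫ t, ψ (x - rot J θ t) * eta ε t := by
    intro θ
    rw [mol_eq]
    have h2 := (rotIso hJ θ).measurePreserving.integral_comp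
      (rotIso hJ θ).toHomeomorph.measurableEmbedding (fun t : E => ψ (x - t) * eta ε t)
    rw [← h2]
    refine integral_congr_ae ?_
    filter_upwards with t
    have h3 : (rotIso hJ θ) t = rot J θ t := rfl
    rw [h3, eta_norm (rot_norm hJ θ t)]
  have h2 : 2 * Real.pi * mol ψ ε x =
      ∫ θ in (0 : ℝ)..(2 * Real.pi), ∫ t, ψ (x - rot J θ t) * eta ε t := by
    have h3 : (fun θ : ℝ => ∫ t, ψ (x - rot J θ t) * eta ε t) = fun _ => mol ψ ε x := by
      funext θ
      rw [← h1 θ]
    rw [h3, intervalIntegral.integral_const, smul_eq_mul, sub_zero]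
  rw [swap h hε (fun p => x - rot J p.1 p.2)
    ((continuous_const.sub (rot_continuous J)).measurable)] at h2
  have h3 : ∫ t : E, 2 * Real.pi * ψ x * eta ε t ≤
      ∫ t : E, (∫ θ in (0 : ℝ)..(2 * Real.pi), ψ (x - rot J θ t) * eta ε t) := by
    have hI : Integrable (fun t : E => ∫ θ in (0 : ℝ)..(2 * Real.pi), ψ (x - rot J θ t) * eta ε t) :=
      innerInt h hε (fun p => x - rot J p.1 p.2)
        ((continuous_const.sub (rot_continuous J)).measurable)
    apply integral_mono ((eta_integrable hε).const_mul _) hI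
    intro t
    simp only
    rw [intervalIntegral.integral_mul_const]
    rcases lt_or_ge ‖t‖ ε with ht | ht
    · apply mul_le_mul_of_nonneg_right _ (eta_nonneg hε t)
      have h7 := h.mean x (-t) (by rw [norm_neg]; linarith)
      simp only [rot_neg, ← sub_eq_add_neg] at h7
      exact h7
    · rw [eta_zero hε.le ht, mul_zero, mul_zero]
  rw [integral_const_mul, eta_integral hε, mul_one, ← h2] at h3
  exact le_of_mul_le_mul_left h3 hpi

/-- The mollification has the submean property. -/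
theorem mol_mean (h : Sub J ψ z₀ R K) {ε : ℝ} (hε : 0 < ε) {x w : E}
    (hx : dist x z₀ + ‖w‖ + ε < R) :
    2 * Real.pi * mol ψ ε x ≤ ∫ θ in (0 : ℝ)..(2 * Real.pi), mol ψ ε (x + rot J θ w) := by
  have hpi : 0 < 2 * Real.pi := by positivity
  have hg : Continuous fun p : ℝ × E => (x - p.2) + rot J p.1 w := by
    have := (rot_continuous J).comp (continuous_fst.prodMk (continuous_const (y := w)) :
      Continuous fun p : ℝ × E => (p.1, w))
    exact (continuous_const.sub continuous_snd).add this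
  have h2 : ∫ θ in (0 : ℝ)..(2 * Real.pi), mol ψ ε (x + rot J θ w) =
      ∫ θ in (0 : ℝ)..(2 * Real.pi), ∫ t, ψ ((x - t) + rot J θ w) * eta ε t := by
    congr 1
    funext θ
    rw [mol_eq]
    congr 1
    funext t
    rw [show x + rot J θ w - t = x - t + rot J θ w by abel]
  rw [h2, swap h hε (fun p => (x - p.2) + rot J p.1 w) hg.measurable, mol_eq, ← integral_const_mul]
  have hI : Integrable (fun t : E => ∫ θ in (0 : ℝ)..(2 * Real.pi),
      ψ ((x - t) + rot J θ w) * eta ε t) :=
    innerInt h hε (fun p => (x - p.2) + rot J p.1 w) hg.measurable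
  apply integral_mono ((mol_integrable h hε (fun t => x - t)
    (continuous_const.sub continuous_id).measurable).const_mul _) hI
  intro t
  simp only
  rw [intervalIntegral.integral_mul_const, ← mul_assoc]
  rcases lt_or_ge ‖t‖ ε with ht | ht
  · apply mul_le_mul_of_nonneg_right _ (eta_nonneg hε t)
    apply h.mean
    have h8 : dist (x - t) z₀ ≤ dist x z₀ + ‖t‖ := by
      rw [dist_eq_norm, dist_eq_norm, show x - t - z₀ = (x - z₀) - t by abel]
      exact norm_sub_le _ _
    linarith
  · rw [eta_zero hε.le ht, mul_zero, mul_zero]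

/-- Upper semicontinuity gives an upper bound for the mollification. -/
theorem mol_le (h : Sub J ψ z₀ R K) {x : E} (hx : x ∈ ball z₀ R) {δ : ℝ} (hδ : 0 < δ) :
    ∃ ρ > 0, ∀ ε : ℝ, 0 < ε → ε ≤ ρ → mol ψ ε x ≤ ψ x + δ := by
  obtain ⟨ρ, hρ, h1⟩ := Metric.eventually_nhds_iff.1 (h.usc x hx δ hδ)
  refine ⟨ρ, hρ, fun ε hε hερ => ?_⟩
  rw [mol_eq]
  have h2 : ∫ t, ψ (x - t) * eta ε t ≤ ∫ t : E, (ψ x + δ) * eta ε t := by
    apply integral_mono (mol_integrable h hε (fun t => x - t)
      (continuous_const.sub continuous_id).measurable) ((eta_integrable hε).const_mul _)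
    intro t
    simp only
    rcases lt_or_ge ‖t‖ ε with ht | ht
    · apply mul_le_mul_of_nonneg_right _ (eta_nonneg hε t)
      apply (h1 _).le
      rw [dist_eq_norm, show x - t - x = -t by abel, norm_neg]
      linarith
    · rw [eta_zero hε.le ht, mul_zero, mul_zero]
  rw [integral_const_mul, eta_integral hε, mul_one] at h2
  exact h2

end Pool.Agent.H820B.PSH
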