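import Mathlib
import Pool.Agent.H820B.PSH.Moll

/-!
At almost every point the function is touched from above by a paraboloid.
-/

set_option autoImplicit false
set_option linter.unusedSectionVars false

open Set Filter Topology Metric MeasureTheory
open scoped InnerProductSpace

namespace Pool.Agent.H820B.PSH

variable {E : Type*} [NormedAddCommGroup E] [InnerProductSpace ℝ E] [FiniteDimensional ℝ E]
  [MeasurableSpace E] [BorelSpace E]
variable {J : E ≃ₗᵢ[ℝ] E} {ψ : E → ℝ} {z₀ : E} {R K : ℝ}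

/-- The contact set of the mollification. -/
def cset (ψ : E → ℝ) (z₀ : E) (r ρ M ε : ℝ) : Set E :=
  {x | x ∈ ball z₀ (r + ρ) ∧ vert (mol ψ ε) M x ∈ closedBall z₀ r ∧
    ∀ x' ∈ closedBall z₀ (2 * r), mol ψ ε x' - M / 2 * ‖x' - vert (mol ψ ε) M x‖ ^ 2 ≤
      mol ψ ε x - M / 2 * ‖x - vert (mol ψ ε) M x‖ ^ 2}

lemma cset_meas (h : Sub J ψ z₀ R K) {r ρ M ε : ℝ} (hε : 0 < ε) :
    MeasurableSet (cset ψ z₀ r ρ M ε) := by
  have hc := mol_contDiff h hε
  have hv := vert_continuous hc M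
  have h1 : cset ψ z₀ r ρ M ε = ball z₀ (r + ρ) ∩ ((vert (mol ψ ε) M) ⁻¹' closedBall z₀ r ∩
      ⋂ x' ∈ closedBall z₀ (2 * r), {x | mol ψ ε x' - M / 2 * ‖x' - vert (mol ψ ε) M x‖ ^ 2 ≤
      mol ψ ε x - M / 2 * ‖x - vert (mol ψ ε) M x‖ ^ 2}) := by
    ext x
    simp only [cset, mem_ofPred_eq, mem_inter_iff, mem_preimage, mem_iInter]
  rw [h1]
  apply measurableSet_ball.inter
  apply IsClosed.measurableSet
  apply (isClosed_closedBall.preimage hv).inter
  apply isClosed_biInter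
  intro x' _
  have := hc.continuous
  apply isClosed_le <;> fun_prop

lemma cset_large (hJ : IsJ J) (h : Sub J ψ z₀ R K) {r ρ M ε : ℝ} (hr : 0 < r) (hR : 4 * r ≤ R)
    (hρ : 0 < ρ) (hρr : ρ < r) (hM : 0 < M) (hK : 4 * K ≤ M * ρ ^ 2) (hε : 0 < ε) (hεr : ε < r) :
    volume (ball z₀ r) ≤ volume (cset ψ z₀ r ρ M ε) := by
  have hc := mol_contDiff h hε
  have h1 : ball z₀ r ⊆ vert (mol ψ ε) M '' cset ψ z₀ r ρ M ε := by
    intro y hy
    have hy' : ‖y - z₀‖ < r := by rwa [mem_ball, dist_eq_norm] at hy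
    obtain ⟨x, hx, hmax⟩ := (isCompact_closedBall z₀ (2 * r)).exists_isMaxOn
      (nonempty_closedBall.2 (by linarith))
      (f := fun z => mol ψ ε z - M / 2 * ‖z - y‖ ^ 2)
      (by have := hc.continuous; fun_prop)
    have h2 : mol ψ ε y - M / 2 * ‖y - y‖ ^ 2 ≤ mol ψ ε x - M / 2 * ‖x - y‖ ^ 2 :=
      hmax (by rw [mem_closedBall, dist_eq_norm]; linarith)
    have h3 := abs_le.1 (mol_abs_le h hε x)
    have h4 := abs_le.1 (mol_abs_le h hε y)
    have h5 : ‖x - y‖ ≤ ρ := by
      have h6 : M * ‖x - y‖ ^ 2 ≤ M * ρ ^ 2 := by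
        rw [sub_self, norm_zero] at h2
        nlinarith
      exact (pow_le_pow_iff_left₀ (norm_nonneg _) hρ.le two_ne_zero).1
        (le_of_mul_le_mul_left h6 hM)
    have h6 : x ∈ ball z₀ (r + ρ) := by
      rw [mem_ball, dist_eq_norm, show x - z₀ = (x - y) + (y - z₀) by abel]
      have := norm_add_le (x - y) (y - z₀)
      linarith
    have h7 : closedBall z₀ (2 * r) ∈ 𝓝 x :=
      mem_of_superset (isOpen_ball.mem_nhds (show x ∈ ball z₀ (2 * r) from
        ball_subset_ball (by linarith) h6)) ball_subset_closedBall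
    have h8 : ∀ᶠ z in 𝓝 x, mol ψ ε z - M / 2 * ‖z - y‖ ^ 2 ≤ mol ψ ε x - M / 2 * ‖x - y‖ ^ 2 := by
      filter_upwards [h7] with z hz
      exact hmax hz
    obtain ⟨h9, -⟩ := contact hc h8
    have h10 : GG (fderiv ℝ (mol ψ ε) x) = M • (x - y) := by
      apply ext_inner_right ℝ
      intro v
      rw [inner_GG, h9 v, real_inner_smul_left]
    have h11 : vert (mol ψ ε) M x = y := by
      rw [vert, h10, smul_smul, one_div, inv_mul_cancel₀ hM.ne', one_smul]
      abel
    refine ⟨x, ⟨h6, ?_, ?_⟩, h11⟩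
    · rw [h11]; exact ball_subset_closedBall hy
    · intro x' hx'
      rw [h11]
      exact hmax hx'
  refine (measure_mono h1).trans ?_
  apply area volume hc hM (cset_meas h hε)
  · rintro x ⟨hx, _, hx2⟩
    have h7 : closedBall z₀ (2 * r) ∈ 𝓝 x :=
      mem_of_superset (isOpen_ball.mem_nhds (show x ∈ ball z₀ (2 * r) from
        ball_subset_ball (by linarith) hx)) ball_subset_closedBall
    filter_upwards [h7] with z hz
    exact hx2 z hz
  · rintro x ⟨hx, _, _⟩
    apply lap_nonneg hJ hc hr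
    intro w hw
    apply mol_mean h hε
    rw [mem_ball] at hx
    linarith

/-- The function lies below a paraboloid of opening `M` which it touches at `x`. -/
def Touch (ψ : E → ℝ) (z₀ : E) (s M : ℝ) (x : E) : Prop :=
  ∃ y, ∀ x' ∈ ball z₀ s, ψ x' ≤ ψ x + M / 2 * (‖x' - y‖ ^ 2 - ‖x - y‖ ^ 2)

theorem key (hJ : IsJ J) (h : Sub J ψ z₀ R K) {r ρ M : ℝ} (hr : 0 < r) (hR : 4 * r ≤ R)
    (hρ : 0 < ρ) (hρr : ρ < r) (hM : 0 < M) (hK : 4 * K ≤ M * ρ ^ 2) :
    ∃ L : Set E, MeasurableSet L ∧ L ⊆ ball z₀ (r + ρ) ∧ volume (ball z₀ r) ≤ volume L ∧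
      ∀ x ∈ L, Touch ψ z₀ (2 * r) M x := by
  set e : ℕ → ℝ := fun k => r / (k + 2) with he
  have he0 : ∀ k, 0 < e k := fun k => by positivity
  have her : ∀ k, e k < r := by
    intro k
    rw [he]
    simp only
    rw [div_lt_iff₀ (by positivity)]
    have : (0 : ℝ) ≤ k := Nat.cast_nonneg k
    nlinarith
  have het : Tendsto e atTop (𝓝 0) := by
    have h1 : Tendsto (fun k : ℕ => (k : ℝ) + 2) atTop atTop :=
      tendsto_atTop_add_const_right _ _ tendsto_natCast_atTop_atTop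
    exact h1.const_div_atTop r
  set A : ℕ → Set E := fun j => ⋃ k ≥ j, cset ψ z₀ r ρ M (e k) with hA
  have hAm : ∀ j, MeasurableSet (A j) := by
    intro j
    apply MeasurableSet.iUnion
    intro k
    apply MeasurableSet.iUnion
    intro _
    exact cset_meas h (he0 k)
  have hAsub : ∀ j, A j ⊆ ball z₀ (r + ρ) := by
    intro j x hx
    simp only [hA, mem_iUnion] at hx
    obtain ⟨k, _, hk⟩ := hx
    exact hk.1
  have hAanti : Antitone A := by
    intro i j hij x hx
    simp only [hA, mem_iUnion] at hx ⊢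
    obtain ⟨k, hk, hxk⟩ := hx
    exact ⟨k, hij.trans hk, hxk⟩
  refine ⟨⋂ j, A j, MeasurableSet.iInter hAm, ?_, ?_, ?_⟩
  · exact (iInter_subset _ 0).trans (hAsub 0)
  · rw [hAanti.measure_iInter (fun j => (hAm j).nullMeasurableSet)
      ⟨0, ((measure_mono (hAsub 0)).trans_lt measure_ball_lt_top).ne⟩]
    apply le_iInf
    intro j
    refine (cset_large hJ h hr hR hρ hρr hM hK (he0 j) (her j)).trans (measure_mono ?_)
    intro x hx
    simp only [hA, mem_iUnion]
    exact ⟨j, le_refl _, hx⟩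
  · intro x hx
    have hxb : x ∈ ball z₀ (r + ρ) := hAsub 0 (mem_iInter.1 hx 0)
    have hfr : ∃ᶠ k in atTop, x ∈ cset ψ z₀ r ρ M (e k) := by
      rw [frequently_atTop]
      intro j
      have := mem_iInter.1 hx j
      simp only [hA, mem_iUnion] at this
      obtain ⟨k, hk, hxk⟩ := this
      exact ⟨k, hk, hxk⟩
    obtain ⟨φ, hφ, hφx⟩ := extraction_of_frequently_atTop hfr
    obtain ⟨y, -, φ', hφ', hy⟩ := (isCompact_closedBall z₀ r).tendsto_subseq
      (x := fun k => vert (mol ψ (e (φ k))) M x) (fun k => (hφx k).2.1)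
    refine ⟨y, fun x' hx' => ?_⟩
    apply le_of_forall_pos_le_add
    intro δ hδ
    obtain ⟨ρ', hρ', hmol⟩ := mol_le h (x := x) (ball_subset_ball (by linarith) hxb) hδ
    have hsub : Tendsto (fun k => e (φ (φ' k))) atTop (𝓝 0) :=
      het.comp (hφ.tendsto_atTop.comp hφ'.tendsto_atTop)
    have hev : ∀ᶠ k in atTop, ψ x' ≤ ψ x + δ + M / 2 *
        (‖x' - vert (mol ψ (e (φ (φ' k)))) M x‖ ^ 2 -
          ‖x - vert (mol ψ (e (φ (φ' k)))) M x‖ ^ 2) := by
      filter_upwards [hsub.eventually (gt_mem_nhds hρ')] with k hk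
      have h1 := (hφx (φ' k)).2.2 x' (ball_subset_closedBall hx')
      have h2 := hmol _ (he0 _) hk.le
      have h3 : ψ x' ≤ mol ψ (e (φ (φ' k))) x' := by
        apply le_mol hJ h (he0 _)
        have := her (φ (φ' k))
        rw [mem_ball] at hx'
        linarith
      linarith
    have hlim : Tendsto (fun k => ψ x + δ + M / 2 *
        (‖x' - vert (mol ψ (e (φ (φ' k)))) M x‖ ^ 2 -
          ‖x - vert (mol ψ (e (φ (φ' k)))) M x‖ ^ 2)) atTop
        (𝓝 (ψ x + δ + M / 2 * (‖x' - y‖ ^ 2 - ‖x - y‖ ^ 2))) := by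
      have h4 : Continuous fun u : E => ψ x + δ + M / 2 * (‖x' - u‖ ^ 2 - ‖x - u‖ ^ 2) := by
        fun_prop
      exact (h4.tendsto y).comp hy
    have := ge_of_tendsto hlim hev
    linarith

/-- At almost every point the function is touched from above by a paraboloid. -/
theorem ae_touch (hJ : IsJ J) (h : Sub J ψ z₀ R K) (hK : 0 < K) {r : ℝ} (hr : 0 < r)
    (hR : 4 * r ≤ R) :
    volume {x | x ∈ ball z₀ r ∧ ¬ ∃ m : ℕ, Touch ψ z₀ (2 * r) m x} = 0 := by
  set ρ : ℕ → ℝ := fun m => Real.sqrt (4 * K / m) with hρ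
  have hρt : Tendsto ρ atTop (𝓝 0) := by
    have h1 : Tendsto (fun m : ℕ => 4 * K / (m : ℝ)) atTop (𝓝 0) :=
      tendsto_natCast_atTop_atTop.const_div_atTop _
    have h2 := h1.sqrt
    rwa [Real.sqrt_zero] at h2
  set N := {x | x ∈ ball z₀ r ∧ ¬ ∃ m : ℕ, Touch ψ z₀ (2 * r) m x} with hN
  have hev : ∀ᶠ m in atTop, volume N ≤ volume (ball z₀ (r + ρ m)) - volume (ball z₀ r) := by
    filter_upwards [hρt.eventually (gt_mem_nhds hr), eventually_gt_atTop 0] with m hm hm0
    have hmR : (0 : ℝ) < m := Nat.cast_pos.2 hm0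
    have hρ0 : 0 < ρ m := Real.sqrt_pos.2 (by positivity)
    obtain ⟨L, hL1, hL2, hL3, hL4⟩ := key hJ h hr hR hρ0 hm hmR (by
      rw [hρ]
      simp only
      rw [Real.sq_sqrt (by positivity)]
      field_simp
      exact le_refl _)
    have h1 : N ⊆ ball z₀ (r + ρ m) \ L := by
      rintro x ⟨hx1, hx2⟩
      refine ⟨ball_subset_ball (by linarith) hx1, fun hxL => hx2 ⟨m, hL4 x hxL⟩⟩
    refine (measure_mono h1).trans ?_
    rw [measure_sdiff hL2 hL1.nullMeasurableSet
      ((measure_mono hL2).trans_lt measure_ball_lt_top).ne]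
    exact tsub_le_tsub_left hL3 _
  have hlim : Tendsto (fun m => volume (ball z₀ (r + ρ m)) - volume (ball z₀ r)) atTop (𝓝 0) := by
    have h1 : Tendsto (fun m => volume (ball z₀ (r + ρ m))) atTop (𝓝 (volume (ball z₀ r))) := by
      have h2 : ∀ m, volume (ball z₀ (r + ρ m)) =
          ENNReal.ofReal ((r + ρ m) ^ Module.finrank ℝ E) * volume (ball (0 : E) 1) := by
        intro m
        apply Measure.addHaar_ball_of_pos
        have := Real.sqrt_nonneg (4 * K / m)
        simp only [hρ]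
        linarith
      have h3 : volume (ball z₀ r) =
          ENNReal.ofReal (r ^ Module.finrank ℝ E) * volume (ball (0 : E) 1) :=
        Measure.addHaar_ball_of_pos _ _ hr
      simp only [h2]
      rw [h3]
      apply ENNReal.Tendsto.mul_const
      · apply ENNReal.tendsto_ofReal
        have h4 : Tendsto (fun m => r + ρ m) atTop (𝓝 r) := by
          simpa using hρt.const_add r
        exact h4.pow _
      · right
        exact measure_ball_lt_top.ne
    have h2 := ENNReal.Tendsto.sub h1 (tendsto_const_nhds (x := volume (ball z₀ r)))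
      (Or.inl measure_ball_lt_top.ne)
    rwa [tsub_self] at h2
  exact le_antisymm (ge_of_tendsto hlim hev) bot_le

end Pool.Agent.H820B.PSH
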