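import Mathlib
import Pool.Agent.H820B.PSH.Contact

/-!
The real structure of complex n-space.
-/

set_option autoImplicit false
set_option linter.unusedSectionVars false

open Set Filter Topology Metric MeasureTheory
open scoped InnerProductSpace

namespace Pool.Agent.H820B.PSH

/-- complex n-space with its Hermitian norm -/
abbrev Cn (n : ℕ) : Type := EuclideanSpace ℂ (Fin n)

/-- The point z + e^{iθ} w on the boundary circle of the complex disc z + D w. -/
noncomputable def circ {n : ℕ} (z w : Cn n) (θ : ℝ) : Cn n :=
  z + Complex.exp ((θ : ℂ) * Complex.I) • w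

/-- Multiplication by `i`. -/
noncomputable def mulI (n : ℕ) : Cn n ≃ₗᵢ[ℝ] Cn n where
  toFun v := Complex.I • v
  invFun v := (-Complex.I) • v
  map_add' x y := smul_add _ _ _
  map_smul' c x := smul_comm _ _ _
  left_inv v := by
    show (-Complex.I) • (Complex.I • v) = v
    rw [smul_smul, neg_mul, Complex.I_mul_I, neg_neg, one_smul]
  right_inv v := by
    show Complex.I • ((-Complex.I) • v) = v
    rw [smul_smul, mul_neg, Complex.I_mul_I, neg_neg, one_smul]
  norm_map' v := by
    show ‖Complex.I • v‖ = ‖v‖
    rw [norm_smul, Complex.norm_I, one_mul]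

theorem mulI_apply {n : ℕ} (v : Cn n) : mulI n v = Complex.I • v := rfl

theorem isJ (n : ℕ) : IsJ (mulI n) := by
  constructor
  · intro v
    rw [mulI_apply, mulI_apply, smul_smul, Complex.I_mul_I, neg_one_smul]
  · intro v
    rw [mulI_apply, PiLp.inner_apply]
    apply Finset.sum_eq_zero
    intro i _
    rw [PiLp.smul_apply, smul_eq_mul, Complex.inner]
    simp [Complex.mul_re]
    ring

theorem circ_eq {n : ℕ} (z w : Cn n) (θ : ℝ) : circ z w θ = z + rot (mulI n) θ w := by
  rw [circ, rot, mulI_apply, Complex.exp_mul_I, add_smul, mul_smul, ← Complex.ofReal_cos,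
    ← Complex.ofReal_sin, Complex.coe_smul, Complex.coe_smul]

end Pool.Agent.H820B.PSH
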