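import Mathlib

/-!
Bounded upper semicontinuous functions on the line are limits of continuous majorants.
-/

set_option autoImplicit false
set_option linter.unusedSectionVars false

open Set Filter Topology Metric MeasureTheory

namespace Pool.Agent.H820B.PSH

/-- The Lipschitz majorant. -/
noncomputable def supc (u : ℝ → ℝ) (j : ℕ) (θ : ℝ) : ℝ := ⨆ θ' : ℝ, (u θ' - j * |θ - θ'|)

variable {u : ℝ → ℝ} {K : ℝ}

lemma supc_bdd (hb : ∀ θ, |u θ| ≤ K) (j : ℕ) (θ : ℝ) :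
    BddAbove (range fun θ' : ℝ => u θ' - j * |θ - θ'|) := by
  refine ⟨K, ?_⟩
  rintro _ ⟨θ', rfl⟩
  have h1 := (abs_le.1 (hb θ')).2
  have h2 : 0 ≤ (j : ℝ) * |θ - θ'| := by positivity
  simp only
  linarith

lemma le_supc (hb : ∀ θ, |u θ| ≤ K) (j : ℕ) (θ : ℝ) : u θ ≤ supc u j θ := by
  have h1 : u θ - j * |θ - θ| ≤ supc u j θ := le_ciSup (supc_bdd hb j θ) θ
  simpa using h1

lemma supc_le (hb : ∀ θ, |u θ| ≤ K) (j : ℕ) (θ : ℝ) : supc u j θ ≤ K := by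
  apply ciSup_le
  intro θ'
  have h1 := (abs_le.1 (hb θ')).2
  have h2 : 0 ≤ (j : ℝ) * |θ - θ'| := by positivity
  linarith

lemma supc_abs (hb : ∀ θ, |u θ| ≤ K) (j : ℕ) (θ : ℝ) : |supc u j θ| ≤ K := by
  rw [abs_le]
  exact ⟨(abs_le.1 (hb θ)).1.trans (le_supc hb j θ), supc_le hb j θ⟩

lemma supc_lip (hb : ∀ θ, |u θ| ≤ K) (j : ℕ) (θ₁ θ₂ : ℝ) :
    supc u j θ₁ ≤ supc u j θ₂ + j * |θ₁ - θ₂| := by
  apply ciSup_le
  intro θ'
  have h2 : |θ₂ - θ'| ≤ |θ₁ - θ₂| + |θ₁ - θ'| := by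
    rw [show θ₂ - θ' = -(θ₁ - θ₂) + (θ₁ - θ') by ring]
    refine (abs_add_le _ _).trans ?_
    rw [abs_neg]
  have h3 : (j : ℝ) * |θ₂ - θ'| ≤ j * (|θ₁ - θ₂| + |θ₁ - θ'|) :=
    mul_le_mul_of_nonneg_left h2 (Nat.cast_nonneg j)
  rw [mul_add] at h3
  have h4 : u θ' - j * |θ₂ - θ'| ≤ supc u j θ₂ := le_ciSup (supc_bdd hb j θ₂) θ'
  linarith

lemma supc_continuous (hb : ∀ θ, |u θ| ≤ K) (j : ℕ) : Continuous (supc u j) := by
  have h1 : LipschitzWith (j : NNReal) (supc u j) := by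
    apply LipschitzWith.of_dist_le_mul
    intro x y
    rw [Real.dist_eq, Real.dist_eq, abs_le]
    have h2 := supc_lip hb j x y
    have h3 := supc_lip hb j y x
    rw [abs_sub_comm y x] at h3
    have h4 : (((j : NNReal) : ℝ)) = (j : ℝ) := by simp
    rw [h4]
    constructor <;> linarith
  exact h1.continuous

lemma supc_tendsto (hb : ∀ θ, |u θ| ≤ K) {θ : ℝ} (hu : ∀ δ > 0, ∀ᶠ θ' in 𝓝 θ, u θ' < u θ + δ) :
    Tendsto (fun j => supc u j θ) atTop (𝓝 (u θ)) := by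
  rw [Metric.tendsto_atTop]
  intro δ hδ
  obtain ⟨ρ, hρ, h1⟩ := Metric.eventually_nhds_iff.1 (hu (δ / 2) (by linarith))
  obtain ⟨N, hN⟩ := exists_nat_gt (2 * K / ρ)
  refine ⟨N, fun j hj => ?_⟩
  have hjN : (N : ℝ) ≤ j := by exact_mod_cast hj
  have h2 : supc u j θ ≤ u θ + δ / 2 := by
    apply ciSup_le
    intro θ'
    rcases lt_or_ge |θ - θ'| ρ with h3 | h3
    · have h4 := h1 (y := θ') (by rw [Real.dist_eq, abs_sub_comm]; exact h3)
      have h5 : 0 ≤ (j : ℝ) * |θ - θ'| := by positivity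
      linarith
    · have h4 := (abs_le.1 (hb θ')).2
      have h5 := (abs_le.1 (hb θ)).1
      have h6 : (2 * K / ρ) * ρ ≤ j * |θ - θ'| := by
        apply mul_le_mul (by linarith) h3 hρ.le (Nat.cast_nonneg j)
      rw [div_mul_cancel₀ _ hρ.ne'] at h6
      linarith
  rw [Real.dist_eq, abs_lt]
  have h3 := le_supc hb j θ
  constructor <;> linarith

theorem usc_approx (hb : ∀ θ, |u θ| ≤ K)
    (hu : ∀ θ, ∀ δ > 0, ∀ᶠ θ' in 𝓝 θ, u θ' < u θ + δ) {c : ℝ}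
    (hc : ∀ h : ℝ → ℝ, Continuous h → (∀ θ ∈ Icc 0 (2 * Real.pi), u θ ≤ h θ) →
      c ≤ (2 * Real.pi)⁻¹ * ∫ θ in (0 : ℝ)..(2 * Real.pi), h θ) :
    2 * Real.pi * c ≤ ∫ θ in (0 : ℝ)..(2 * Real.pi), u θ := by
  have hpi : 0 < 2 * Real.pi := by positivity
  have h1 : Tendsto (fun j : ℕ => ∫ θ in (0 : ℝ)..(2 * Real.pi), supc u j θ) atTop
      (𝓝 (∫ θ in (0 : ℝ)..(2 * Real.pi), u θ)) := by
    apply intervalIntegral.tendsto_integral_filter_of_dominated_convergence (fun _ => K)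
    · filter_upwards with j
      exact (supc_continuous hb j).aestronglyMeasurable
    · filter_upwards with j
      filter_upwards with θ _
      rw [Real.norm_eq_abs]
      exact supc_abs hb j θ
    · exact intervalIntegrable_const
    · filter_upwards with θ _
      exact supc_tendsto hb (hu θ)
  apply ge_of_tendsto h1
  filter_upwards with j
  have h2 := hc (supc u j) (supc_continuous hb j) (fun θ _ => le_supc hb j θ)
  rw [inv_mul_eq_div, le_div_iff₀ hpi] at h2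
  linarith

end Pool.Agent.H820B.PSH
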